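import Mathlib

set_option autoImplicit false

open MeasureTheory Set Filter Topology

namespace Pool.Agent.W595.WM

theorem lap (f : ℝ → ℝ) (hf0 : ∀ v, 0 ≤ f v) (hfm : Measurable f)
    (hloc : ∀ V : ℝ, IntegrableOn f (Set.Ioc 0 V)) (V : ℝ) (hV : 0 < V) :
    ∫⁻ v in Set.Ioi (0:ℝ), ENNReal.ofReal (f v * Real.exp (-(v / V))) =
      ∫⁻ w in Set.Ioi (0:ℝ), ENNReal.ofReal (1 / V * Real.exp (-(w / V))) *
        ENNReal.ofReal (∫ v in Set.Ioc 0 w, f v) := by
  have hKm : Measurable (fun w : ℝ => ENNReal.ofReal (1 / V * Real.exp (-(w / V)))) := by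
    fun_prop
  have hexp : ∀ v : ℝ, ∫ w in Set.Ioi v, 1 / V * Real.exp (-(w / V)) = Real.exp (-(v / V)) := by
    intro v
    have h := integral_exp_mul_Ioi (a := -(1 / V)) (by
      have : 0 < 1 / V := by positivity
      linarith) v
    have e : ∀ w : ℝ, Real.exp (-(w / V)) = Real.exp (-(1 / V) * w) := by
      intro w; congr 1; ring
    simp_rw [e]
    rw [MeasureTheory.integral_const_mul, h]
    field_simp
  have hint : ∀ v : ℝ, IntegrableOn (fun w => 1 / V * Real.exp (-(w / V))) (Set.Ioi v) := by
    intro v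
    have h := integrableOn_exp_mul_Ioi (a := -(1 / V)) (by
      have : 0 < 1 / V := by positivity
      linarith) v
    have e : (fun w : ℝ => 1 / V * Real.exp (-(w / V))) =
        fun w : ℝ => 1 / V * Real.exp (-(1 / V) * w) := by
      funext w; congr 2; ring
    rw [e]
    exact h.const_mul _
  have hK : ∀ v : ℝ, 0 < v → ∫⁻ w in Set.Ioi (0:ℝ),
      (if v ≤ w then ENNReal.ofReal (1 / V * Real.exp (-(w / V))) else 0) =
      ENNReal.ofReal (Real.exp (-(v / V))) := by
    intro v hv
    have e1 : (fun w : ℝ => if v ≤ w then ENNReal.ofReal (1 / V * Real.exp (-(w / V))) else 0) =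
        (Set.Ici v).indicator (fun w => ENNReal.ofReal (1 / V * Real.exp (-(w / V)))) := by
      funext w
      by_cases h : v ≤ w
      · rw [if_pos h, Set.indicator_of_mem (by exact h)]
      · rw [if_neg h, Set.indicator_of_notMem (by exact h)]
    rw [e1, lintegral_indicator measurableSet_Ici, Measure.restrict_restrict measurableSet_Ici]
    have e2 : Set.Ici v ∩ Set.Ioi (0:ℝ) = Set.Ici v := by
      apply Set.inter_eq_left.2
      intro x hx
      exact lt_of_lt_of_le hv hx
    rw [e2, setLIntegral_congr Ioi_ae_eq_Ici.symm, ← ofReal_integral_eq_lintegral_ofReal (hint v)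
      (ae_of_all _ fun w => by positivity), hexp v]
  have hphi : ∀ w : ℝ, ∫⁻ v in Set.Ioc 0 w, ENNReal.ofReal (f v) =
      ENNReal.ofReal (∫ v in Set.Ioc 0 w, f v) := by
    intro w
    rw [ofReal_integral_eq_lintegral_ofReal (hloc w) (ae_of_all _ fun v => hf0 v)]
  calc ∫⁻ v in Set.Ioi (0:ℝ), ENNReal.ofReal (f v * Real.exp (-(v / V)))
      = ∫⁻ v in Set.Ioi (0:ℝ), ∫⁻ w in Set.Ioi (0:ℝ), ENNReal.ofReal (f v) *
        (if v ≤ w then ENNReal.ofReal (1 / V * Real.exp (-(w / V))) else 0) := by
        apply setLIntegral_congr_fun measurableSet_Ioi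
        intro v hv
        simp only
        rw [lintegral_const_mul _ (Measurable.ite measurableSet_Ici hKm measurable_const),
          hK v hv, ← ENNReal.ofReal_mul (hf0 v)]
    _ = ∫⁻ w in Set.Ioi (0:ℝ), ∫⁻ v in Set.Ioi (0:ℝ), ENNReal.ofReal (f v) *
        (if v ≤ w then ENNReal.ofReal (1 / V * Real.exp (-(w / V))) else 0) := by
        apply lintegral_lintegral_swap
        apply Measurable.aemeasurable
        apply Measurable.mul
        · exact (hfm.comp measurable_fst).ennreal_ofReal
        · exact Measurable.ite (measurableSet_le measurable_fst measurable_snd)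
            (hKm.comp measurable_snd) measurable_const
    _ = ∫⁻ w in Set.Ioi (0:ℝ), ENNReal.ofReal (1 / V * Real.exp (-(w / V))) *
        ENNReal.ofReal (∫ v in Set.Ioc 0 w, f v) := by
        apply setLIntegral_congr_fun measurableSet_Ioi
        intro w hw
        simp only
        have e1 : (fun v : ℝ => ENNReal.ofReal (f v) *
            (if v ≤ w then ENNReal.ofReal (1 / V * Real.exp (-(w / V))) else 0)) =
            (Set.Iic w).indicator (fun v => ENNReal.ofReal (f v) *
              ENNReal.ofReal (1 / V * Real.exp (-(w / V)))) := by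
          funext v
          by_cases h : v ≤ w
          · rw [if_pos h, Set.indicator_of_mem (by exact h)]
          · rw [if_neg h, Set.indicator_of_notMem (by exact h), mul_zero]
        rw [e1, lintegral_indicator measurableSet_Iic, Measure.restrict_restrict measurableSet_Iic]
        have e2 : Set.Iic w ∩ Set.Ioi (0:ℝ) = Set.Ioc 0 w := by
          ext x; simp only [Set.mem_inter_iff, Set.mem_Iic, Set.mem_Ioi, Set.mem_Ioc]; tauto
        rw [e2, lintegral_mul_const _ hfm.ennreal_ofReal, hphi, mul_comm]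

theorem lap_one (V : ℝ) (hV : 0 < V) :
    ∫⁻ w in Set.Ioi (0:ℝ), ENNReal.ofReal (1 / V * Real.exp (-(w / V))) * ENNReal.ofReal w =
      ENNReal.ofReal V ∧
    ∫⁻ w in Set.Ioi (0:ℝ), ENNReal.ofReal (1 / V * Real.exp (-(w / V))) = 1 := by
  have e : ∀ w : ℝ, Real.exp (-(w / V)) = Real.exp (-(1 / V) * w) := by
    intro w; congr 1; ring
  have hneg : -(1 / V) < 0 := by
    have : 0 < 1 / V := by positivity
    linarith
  have hint := integrableOn_exp_mul_Ioi (a := -(1 / V)) hneg 0
  have hval := integral_exp_mul_Ioi (a := -(1 / V)) hneg 0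
  have h1 : ∫⁻ w in Set.Ioi (0:ℝ), ENNReal.ofReal (Real.exp (-(w / V))) = ENNReal.ofReal V := by
    simp_rw [e]
    rw [← ofReal_integral_eq_lintegral_ofReal hint (ae_of_all _ fun w => by positivity), hval]
    congr 1
    simp
  constructor
  · have h := lap (fun _ => (1:ℝ)) (fun _ => zero_le_one) measurable_const
      (fun W => by simp) V hV
    simp only [one_mul] at h
    rw [h1] at h
    rw [h]
    apply setLIntegral_congr_fun measurableSet_Ioi
    intro w hw
    have hw' : (0:ℝ) < w := hw
    simp only [integral_const, MeasurableSet.univ, measureReal_restrict_apply, Set.univ_inter,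
      Real.volume_real_Ioc, sub_zero, smul_eq_mul, mul_one]
    rw [max_eq_left hw'.le]
  · have : ∀ w : ℝ, ENNReal.ofReal (1 / V * Real.exp (-(w / V))) =
        ENNReal.ofReal (1 / V) * ENNReal.ofReal (Real.exp (-(w / V))) := by
      intro w; rw [ENNReal.ofReal_mul (by positivity)]
    simp_rw [this]
    rw [lintegral_const_mul _ (by fun_prop), h1, ← ENNReal.ofReal_mul (by positivity)]
    rw [one_div, inv_mul_cancel₀ hV.ne', ENNReal.ofReal_one]

theorem taub (f : ℝ → ℝ) (hf0 : ∀ v, 0 ≤ f v) (hfm : Measurable f)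
    (hloc : ∀ V : ℝ, IntegrableOn f (Set.Ioc 0 V)) (S : ℝ) (hS : 0 ≤ S)
    (hlow : ∀ ε : ℝ, 0 < ε → ∀ᶠ V : ℝ in Filter.atTop, (S - ε) * V ≤ ∫ v in Set.Ioc 0 V, f v)
    (hup : ∀ ε : ℝ, 0 < ε → ∀ᶠ V : ℝ in Filter.atTop,
      ∫⁻ v in Set.Ioi 0, ENNReal.ofReal (f v * Real.exp (-(v / V))) ≤
        ENNReal.ofReal ((S + ε) * V)) :
    Filter.Tendsto (fun V : ℝ => (∫ v in Set.Ioc 0 V, f v) / V) Filter.atTop (nhds S) := by
  have hmono : ∀ a b : ℝ, a ≤ b → ∫ v in Set.Ioc 0 a, f v ≤ ∫ v in Set.Ioc 0 b, f v := by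
    intro a b hab
    apply setIntegral_mono_set (hloc b) (ae_of_all _ fun v => hf0 v)
    exact (Set.Ioc_subset_Ioc_right hab).eventuallyLE
  have hpos : ∀ a : ℝ, 0 ≤ ∫ v in Set.Ioc 0 a, f v := by
    intro a; exact integral_nonneg fun v => hf0 v
  rw [tendsto_order]
  constructor
  · intro a ha
    filter_upwards [hlow ((S - a) / 2) (by linarith), eventually_gt_atTop (0:ℝ)] with V h1 h2
    rw [lt_div_iff₀ h2]
    nlinarith
  · intro a ha
    by_contra hcon
    have hfr : ∃ᶠ V : ℝ in atTop, ¬ ((∫ v in Set.Ioc 0 V, f v) / V < a) :=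
      Filter.not_eventually.1 hcon
    set η : ℝ := a - S with hη
    have hη0 : 0 < η := by linarith
    set κ : ℝ := η / (2 * (S + 1)) with hκ
    have hκ0 : 0 < κ := by positivity
    have hSκ : S * κ ≤ η / 2 := by
      rw [hκ]
      have : S * (η / (2 * (S + 1))) = η / 2 * (S / (S + 1)) := by field_simp
      rw [this]
      have h1 : S / (S + 1) ≤ 1 := by
        rw [div_le_one (by linarith)]; linarith
      nlinarith
    set c0 : ℝ := η / 2 * (κ * Real.exp (-(1 + κ))) with hc0
    have hc00 : 0 < c0 := by positivity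
    have he := hlow (c0 / 4) (by positivity)
    obtain ⟨W0, hW0⟩ := Filter.eventually_atTop.1 he
    set w0 : ℝ := max W0 0 with hw0
    have hw00 : 0 ≤ w0 := le_max_right _ _
    obtain ⟨V, hV1, hV2, hV3, hV4⟩ := (hfr.and_eventually ((hup (c0 / 4) (by positivity)).and
      ((eventually_gt_atTop (0:ℝ)).and (eventually_gt_atTop (2 * (S * w0) / c0))))).exists
    have hPV : (S + η) * V ≤ ∫ v in Set.Ioc 0 V, f v := by
      have h1 : a ≤ (∫ v in Set.Ioc 0 V, f v) / V := not_lt.1 hV1
      rw [le_div_iff₀ hV3] at h1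
      have : S + η = a := by rw [hη]; ring
      rw [this]; exact h1
    have hbig : S * w0 < c0 / 2 * V := by
      rw [div_lt_iff₀ hc00] at hV4
      nlinarith
    rw [lap f hf0 hfm hloc V hV3] at hV2
    set K : ℝ → ENNReal := fun w => ENNReal.ofReal (1 / V * Real.exp (-(w / V))) with hK
    have hKm : Measurable K := by rw [hK]; fun_prop
    obtain ⟨hl1, hl2⟩ := lap_one V hV3
    have hpt : ∀ w : ℝ, 0 < w →
        S * w + (if w ∈ Set.Ioc V ((1 + κ) * V) then η / 2 * V else 0) ≤
          (∫ v in Set.Ioc 0 w, f v) + S * w0 + c0 / 4 * w := by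
      intro w hw
      by_cases hb : w ∈ Set.Ioc V ((1 + κ) * V)
      · rw [if_pos hb]
        have h1 := hmono V w hb.1.le
        have h2 : S * w ≤ S * ((1 + κ) * V) := mul_le_mul_of_nonneg_left hb.2 hS
        have h3 : S * κ * V ≤ η / 2 * V := mul_le_mul_of_nonneg_right hSκ hV3.le
        have h4 : 0 ≤ S * w0 := by positivity
        have h5 : 0 ≤ c0 / 4 * w := by positivity
        nlinarith
      · rw [if_neg hb, add_zero]
        rcases le_total w0 w with h | h
        · have h1 := hW0 w (le_trans (le_max_left _ _) h)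
          have h4 : 0 ≤ S * w0 := by positivity
          nlinarith
        · have h1 : S * w ≤ S * w0 := mul_le_mul_of_nonneg_left h hS
          have h2 := hpos w
          have h5 : 0 ≤ c0 / 4 * w := by positivity
          linarith
    -- integrate
    have hint : ∫⁻ w in Set.Ioi (0:ℝ), (K w * ENNReal.ofReal S * ENNReal.ofReal w +
        (Set.Ioc V ((1 + κ) * V)).indicator (fun w => K w * ENNReal.ofReal (η / 2 * V)) w) ≤
        ∫⁻ w in Set.Ioi (0:ℝ), (K w * ENNReal.ofReal (∫ v in Set.Ioc 0 w, f v) +
          (K w * ENNReal.ofReal (S * w0) + ENNReal.ofReal (c0 / 4) * (K w * ENNReal.ofReal w))) := by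
      apply setLIntegral_mono' measurableSet_Ioi
      intro w hw
      have hw' : (0:ℝ) < w := hw
      have h1 := hpt w hw'
      have e1 : (Set.Ioc V ((1 + κ) * V)).indicator (fun w => K w * ENNReal.ofReal (η / 2 * V)) w =
          K w * ENNReal.ofReal (if w ∈ Set.Ioc V ((1 + κ) * V) then η / 2 * V else 0) := by
        by_cases hb : w ∈ Set.Ioc V ((1 + κ) * V)
        · rw [Set.indicator_of_mem hb, if_pos hb]
        · rw [Set.indicator_of_notMem hb, if_neg hb, ENNReal.ofReal_zero, mul_zero]
      have hifn : 0 ≤ (if w ∈ Set.Ioc V ((1 + κ) * V) then η / 2 * V else 0) := by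
        split_ifs
        · positivity
        · exact le_refl _
      rw [e1, mul_assoc, ← ENNReal.ofReal_mul hS, ← mul_add, ← ENNReal.ofReal_add (by positivity) hifn]
      have e2 : K w * ENNReal.ofReal (∫ v in Set.Ioc 0 w, f v) +
          (K w * ENNReal.ofReal (S * w0) + ENNReal.ofReal (c0 / 4) * (K w * ENNReal.ofReal w)) =
          K w * ENNReal.ofReal ((∫ v in Set.Ioc 0 w, f v) + S * w0 + c0 / 4 * w) := by
        have h3 : ENNReal.ofReal (c0 / 4 * w) = ENNReal.ofReal (c0 / 4) * ENNReal.ofReal w :=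
          ENNReal.ofReal_mul (by positivity)
        rw [ENNReal.ofReal_add (add_nonneg (hpos w) (by positivity)) (by positivity),
          ENNReal.ofReal_add (hpos w) (by positivity), h3]
        ring
      rw [e2]
      exact mul_le_mul_right (ENNReal.ofReal_le_ofReal h1) (K w)
    have hL : ENNReal.ofReal (S * V + c0 * V) ≤
        ∫⁻ w in Set.Ioi (0:ℝ), (K w * ENNReal.ofReal S * ENNReal.ofReal w +
        (Set.Ioc V ((1 + κ) * V)).indicator (fun w => K w * ENNReal.ofReal (η / 2 * V)) w) := by
      rw [lintegral_add_left (by fun_prop)]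
      rw [ENNReal.ofReal_add (by positivity) (by positivity)]
      apply add_le_add
      · have : ∀ w : ℝ, K w * ENNReal.ofReal S * ENNReal.ofReal w =
            ENNReal.ofReal S * (K w * ENNReal.ofReal w) := by intro w; ring
        simp_rw [this]
        rw [lintegral_const_mul _ (by fun_prop), hl1, ← ENNReal.ofReal_mul hS]
      · rw [lintegral_indicator measurableSet_Ioc, Measure.restrict_restrict measurableSet_Ioc]
        have e2 : Set.Ioc V ((1 + κ) * V) ∩ Set.Ioi (0:ℝ) = Set.Ioc V ((1 + κ) * V) := by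
          apply Set.inter_eq_left.2
          intro x hx
          exact lt_trans hV3 hx.1
        rw [e2]
        have h1 : ∫⁻ w in Set.Ioc V ((1 + κ) * V),
            ENNReal.ofReal (1 / V * Real.exp (-(1 + κ)) * (η / 2 * V)) ≤
            ∫⁻ w in Set.Ioc V ((1 + κ) * V), K w * ENNReal.ofReal (η / 2 * V) := by
          apply setLIntegral_mono' measurableSet_Ioc
          intro w hw
          rw [ENNReal.ofReal_mul (by positivity)]
          apply mul_le_mul_left
          apply ENNReal.ofReal_le_ofReal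
          apply mul_le_mul_of_nonneg_left _ (by positivity)
          apply Real.exp_le_exp.2
          apply neg_le_neg
          rw [div_le_iff₀ hV3]
          exact hw.2
        refine le_trans (le_of_eq ?_) h1
        rw [lintegral_const, Measure.restrict_apply MeasurableSet.univ, Set.univ_inter,
          Real.volume_Ioc, ← ENNReal.ofReal_mul (by positivity)]
        congr 1
        rw [hc0]
        field_simp
        ring
    have hR : ∫⁻ w in Set.Ioi (0:ℝ), (K w * ENNReal.ofReal (∫ v in Set.Ioc 0 w, f v) +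
          (K w * ENNReal.ofReal (S * w0) + ENNReal.ofReal (c0 / 4) * (K w * ENNReal.ofReal w))) ≤
        ENNReal.ofReal ((S + c0 / 4) * V + (S * w0 + c0 / 4 * V)) := by
      rw [lintegral_add_right _ (by fun_prop), lintegral_add_left (by fun_prop),
        lintegral_mul_const _ hKm, lintegral_const_mul _ (by fun_prop), hl1, hl2, one_mul,
        ENNReal.ofReal_add (by positivity) (by positivity),
        ENNReal.ofReal_add (by positivity) (by positivity),
        ENNReal.ofReal_mul (by positivity : (0:ℝ) ≤ c0 / 4)]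
      gcongr
    have hfin := le_trans hL (le_trans hint hR)
    rw [ENNReal.ofReal_le_ofReal_iff (by positivity)] at hfin
    nlinarith

end Pool.Agent.W595.WM
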